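import Pool.Agent.Q149.Wedge

open Q149.Fun

namespace Pool.Agent.Results.MP_2f5a6b_gt.NotSquareSkeletal

/-- (1) A skeletal normal functor need not be square-skeletal; (2) a finitary skeletal normal
functor need not even be finitely square-skeletal. -/
theorem result :
    (∃ F : CompFunctor, IsNormal F ∧ SkeletalFunctor F ∧ ¬ SquareSkeletal F) ∧
    (∃ F : CompFunctor, IsFinitary F ∧ IsNormal F ∧ SkeletalFunctor F ∧
      ¬ FinSquareSkeletal F) :=
  ⟨⟨W, W_normal, W_skeletal, fun h => W_not_square (h sq sq_surj sq_skeletal)⟩,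
    ⟨W, W_finitary, W_normal, W_skeletal,
      fun h => W_not_square (h sq sq_fin sq_surj sq_skeletal)⟩⟩

end Pool.Agent.Results.MP_2f5a6b_gt.NotSquareSkeletal
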